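import Pool.Agent.H74.JacDefs
import Pool.Agent.H74.ArrConfig

namespace Pool.Agent.Results.MP_c865e8_ag.AllPartitions

open Pool.Agent.H74.Jac

/-- **Affirmative answer to Q1.** For every integer `t ≥ 1` and every ordered partition `π` of `t`
(a composition of `t`) there is a reduced plane curve `f = 0` of some degree `d ≥ 3` of
class `tT_π`. -/
theorem result (t : ℕ) (ht : 1 ≤ t) (π : Composition t) :
    ∃ (d : ℕ) (f : S), IsReducedCurve f d ∧ HasClass f d π :=
  Pool.Agent.H74.Arr.main π ht

end Pool.Agent.Results.MP_c865e8_ag.AllPartitions
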